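import Pool.Agent.H51.MO.TargetsA

/-! Row `A_HV` of the board `mo_modules`: second moment of the Fourier coefficients. -/

namespace Pool.Agent.H51.MO

open Finset

namespace HVaux

lemma sg_mul_self (c : Bool) : sg c * sg c = 1 := by cases c <;> simp [sg]

lemma sg_mul (a c : Bool) : sg a * sg c = sg (a == c) := by
  cases a <;> cases c <;> simp [sg]

lemma Ksum {k b : ℕ} (x x' : Pt k b) :
    ∑ s : Om k b, ys s x * ys s x' = 2 * ∏ l, ∑ i, sg (x l i) * sg (x' l i) := by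
  have h1 : ∀ s : Om k b, ys s x * ys s x' = ∏ l, (sg (x l (s.1 l)) * sg (x' l (s.1 l))) := by
    intro s
    unfold ys
    rw [Finset.prod_mul_distrib]
    calc _ = (sg s.2 * sg s.2) * ((∏ l, sg (x l (s.1 l))) * ∏ l, sg (x' l (s.1 l))) := by ring
      _ = _ := by rw [sg_mul_self, one_mul]
  rw [Finset.sum_congr rfl (fun s _ => h1 s), Fintype.sum_prod_type, Finset.prod_univ_sum,
    Fintype.piFinset_univ, Finset.mul_sum]
  refine Finset.sum_congr rfl (fun S _ => ?_)
  simp [two_mul]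

lemma prod_le_sum_pow {k : ℕ} (hk : 1 ≤ k) (j : ℕ) (ρ : Fin k → ℝ) (h : ∀ l, 0 ≤ ρ l) :
    ∏ l, ρ l ^ j ≤ ∑ l, ρ l ^ (k * j) := by
  have hne : (Finset.univ : Finset (Fin k)).Nonempty := ⟨⟨0, hk⟩, Finset.mem_univ _⟩
  obtain ⟨l0, _, hl0⟩ := Finset.exists_max_image Finset.univ ρ hne
  calc ∏ l, ρ l ^ j ≤ ∏ _l : Fin k, ρ l0 ^ j :=
        Finset.prod_le_prod (fun l _ => pow_nonneg (h l) _)
          (fun l _ => pow_le_pow_left₀ (h l) (hl0 l (Finset.mem_univ _)) _)
    _ = ρ l0 ^ (k * j) := by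
        rw [Finset.prod_const, Finset.card_univ, Fintype.card_fin, ← pow_mul, mul_comm]
    _ ≤ _ := Finset.single_le_sum (f := fun l => ρ l ^ (k * j))
        (fun l _ => pow_nonneg (h l) _) (Finset.mem_univ l0)

lemma pw {t M : ℝ} (ht : 0 ≤ t) (hM : 0 < M) {i n : ℕ} (h : i ≤ n) :
    t ^ i ≤ M ^ i * (1 + (t / M) ^ n) := by
  have h0 : 0 ≤ t / M := div_nonneg ht hM.le
  rcases le_total t M with h1 | h1
  · have h2 : t ^ i ≤ M ^ i := pow_le_pow_left₀ ht h1 i
    have h3 : 0 ≤ (t / M) ^ n := pow_nonneg h0 n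
    have h4 : 0 ≤ M ^ i := pow_nonneg hM.le i
    nlinarith
  · have h2 : 1 ≤ t / M := by rwa [le_div_iff₀ hM, one_mul]
    have h3 : (t / M) ^ i ≤ (t / M) ^ n := pow_le_pow_right₀ h2 h
    have h4 : t ^ i = M ^ i * (t / M) ^ i := by
      rw [← mul_pow, mul_div_cancel₀ _ hM.ne']
    rw [h4]
    exact mul_le_mul_of_nonneg_left (by linarith) (pow_nonneg hM.le i)

lemma sum_coord {k : ℕ} {Y : Type} [Fintype Y] (f : Y → ℝ) (l : Fin k) :
    ∑ x : Fin k → Y, f (x l) = (∑ y, f y) * (Fintype.card Y : ℝ) ^ (k - 1) := by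
  classical
  have h1 : ∀ x : Fin k → Y, f (x l) = ∏ m, (if m = l then f (x m) else 1) := by
    intro x
    rw [Finset.prod_ite_eq' Finset.univ l (fun m => f (x m))]
    simp
  have h2 := Finset.prod_univ_sum (fun _ : Fin k => (Finset.univ : Finset Y))
    (fun m y => if m = l then f y else (1 : ℝ))
  rw [Fintype.piFinset_univ] at h2
  rw [Finset.sum_congr rfl (fun x _ => h1 x), ← h2,
    ← Finset.mul_prod_erase Finset.univ _ (Finset.mem_univ l)]
  congr 1
  · simp
  · have h3 : ∀ m ∈ Finset.univ.erase l, ∑ y : Y, (if m = l then f y else (1 : ℝ)) =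
        (Fintype.card Y : ℝ) := by
      intro m hm
      simp [Finset.ne_of_mem_erase hm]
    rw [Finset.prod_congr rfl h3, Finset.prod_const, Finset.card_erase_of_mem (Finset.mem_univ l),
      Finset.card_univ, Fintype.card_fin]

/-- the moment of one coordinate over all points -/
lemma mom_full (hM : S_AMOM) {k b q : ℕ} (hk : 1 ≤ k) (x' : Pt k b) (l : Fin k) :
    ∑ x : Pt k b, (∑ i, sg (x l i) * sg (x' l i)) ^ (2 * q) ≤
      2 ^ (k * b) * (8 * q * b : ℝ) ^ q := by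
  have h1 := sum_coord (Y := Fin b → Bool)
    (fun y => (∑ i, sg (y i) * sg (x' l i)) ^ (2 * q)) l
  rw [h1]
  have hinv : Function.Involutive (fun (y : Fin b → Bool) i => y i == x' l i) := by
    intro y
    funext i
    show ((y i == x' l i) == x' l i) = y i
    generalize y i = u
    generalize x' l i = w
    cases u <;> cases w <;> rfl
  have h2 : ∑ y : Fin b → Bool, (∑ i, sg (y i) * sg (x' l i)) ^ (2 * q) =
      ∑ y : Fin b → Bool, (∑ i, sg (y i)) ^ (2 * q) := by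
    refine Fintype.sum_equiv (Function.Involutive.toPerm _ hinv) _ _ (fun y => ?_)
    congr 1
    refine Finset.sum_congr rfl (fun i _ => ?_)
    exact sg_mul _ _
  rw [h2]
  have h3 := hM b q
  have h4 : (Fintype.card (Fin b → Bool) : ℝ) = 2 ^ b := by simp
  rw [h4]
  calc _ ≤ (2 ^ b * (8 * q * b : ℝ) ^ q) * (2 ^ b) ^ (k - 1) :=
        mul_le_mul_of_nonneg_right h3 (by positivity)
    _ = 2 ^ (k * b) * (8 * q * b : ℝ) ^ q := by
        obtain ⟨k', rfl⟩ : ∃ k', k = k' + 1 := ⟨k - 1, by omega⟩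
        rw [Nat.add_sub_cancel, add_mul, one_mul, pow_add, mul_comm k' b, pow_mul]
        ring

/-- the sum over `A` for a fixed second point -/
lemma sum_A (hM : S_AMOM) {k b q j : ℕ} (A : Finset (Pt k b)) (hk : 1 ≤ k) (hb : 1 ≤ b)
    (hj : 1 ≤ j) (hq : k * j ≤ 2 * q) (hA : (2 : ℝ) ^ (k * b) ≤ 4 ^ q * A.card) (x' : Pt k b) :
    ∑ x ∈ A, ∏ l, (|∑ i, sg (x l i) * sg (x' l i)| / b) ^ j ≤
      A.card * Real.sqrt (128 * q / b) ^ (k * j) := by
  have hb' : (0 : ℝ) < b := by exact_mod_cast hb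
  have hq1 : 1 ≤ q := by
    have : 1 ≤ k * j := Nat.mul_pos hk hj
    omega
  have hq' : (0 : ℝ) < q := by exact_mod_cast hq1
  set M : ℝ := Real.sqrt (32 * q / b) with hMdef
  have hM0 : 0 < M := Real.sqrt_pos.2 (by positivity)
  have hM2 : M ^ 2 = 32 * q / b := Real.sq_sqrt (by positivity)
  have hS : Real.sqrt (128 * q / b) = 2 * M := by
    rw [show (128 * q / b : ℝ) = 2 ^ 2 * (32 * q / b) by ring, Real.sqrt_mul (by norm_num),
      Real.sqrt_sq (by norm_num)]
  set R : Pt k b → Fin k → ℝ := fun x l => |∑ i, sg (x l i) * sg (x' l i)| / b with hR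
  have hR0 : ∀ x l, 0 ≤ R x l := fun x l => div_nonneg (abs_nonneg _) hb'.le
  have h1 : ∀ l, ∑ x ∈ A, R x l ^ (k * j) ≤ M ^ (k * j) * (2 * A.card) := by
    intro l
    have h2 : ∀ x ∈ A, R x l ^ (k * j) ≤ M ^ (k * j) * (1 + (R x l / M) ^ (2 * q)) :=
      fun x _ => pw (hR0 x l) hM0 hq
    refine (Finset.sum_le_sum h2).trans ?_
    rw [← Finset.mul_sum, Finset.sum_add_distrib]
    refine mul_le_mul_of_nonneg_left ?_ (pow_nonneg hM0.le _)
    have h3 : ∑ x ∈ A, (R x l / M) ^ (2 * q) ≤ A.card := by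
      calc ∑ x ∈ A, (R x l / M) ^ (2 * q) ≤ ∑ x : Pt k b, (R x l / M) ^ (2 * q) :=
            Finset.sum_le_sum_of_subset_of_nonneg (Finset.subset_univ _)
              (fun x _ _ => pow_nonneg (div_nonneg (hR0 x l) hM0.le) _)
        _ = (∑ x : Pt k b, (∑ i, sg (x l i) * sg (x' l i)) ^ (2 * q)) / (b * M) ^ (2 * q) := by
            rw [Finset.sum_div]
            refine Finset.sum_congr rfl (fun x _ => ?_)
            rw [hR]
            simp only
            rw [div_div, div_pow, Even.pow_abs ⟨q, two_mul q⟩]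
        _ ≤ (2 ^ (k * b) * (8 * q * b : ℝ) ^ q) / (b * M) ^ (2 * q) :=
            div_le_div_of_nonneg_right (mom_full hM hk x' l) (by positivity)
        _ = 2 ^ (k * b) / 4 ^ q := by
            have h4 : (b * M) ^ (2 * q) = (32 * q * b : ℝ) ^ q := by
              rw [pow_mul, mul_pow, hM2]
              congr 1
              field_simp
            have h5 : (32 * q * b : ℝ) ^ q = 4 ^ q * (8 * q * b : ℝ) ^ q := by
              rw [← mul_pow]
              congr 1
              ring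
            rw [h4, h5]
            have h6 : (8 * q * b : ℝ) ^ q ≠ 0 := by positivity
            field_simp
        _ ≤ A.card := by
            rw [div_le_iff₀ (by positivity)]
            linarith
    have h7 : ∑ _x ∈ A, (1 : ℝ) = A.card := by simp
    rw [h7]
    linarith
  calc ∑ x ∈ A, ∏ l, R x l ^ j ≤ ∑ x ∈ A, ∑ l, R x l ^ (k * j) :=
        Finset.sum_le_sum (fun x _ => prod_le_sum_pow hk j (R x) (hR0 x))
    _ = ∑ l, ∑ x ∈ A, R x l ^ (k * j) := Finset.sum_comm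
    _ ≤ ∑ _l : Fin k, M ^ (k * j) * (2 * A.card) := Finset.sum_le_sum (fun l _ => h1 l)
    _ = (2 * k : ℝ) * (A.card * M ^ (k * j)) := by
        rw [Finset.sum_const, Finset.card_univ, Fintype.card_fin, nsmul_eq_mul]
        ring
    _ ≤ 2 ^ (k * j) * (A.card * M ^ (k * j)) := by
        refine mul_le_mul_of_nonneg_right ?_ (by positivity)
        have h8 : 2 * k ≤ 2 ^ k := by
          obtain ⟨k', rfl⟩ : ∃ k', k = k' + 1 := ⟨k - 1, by omega⟩
          have : k' + 1 ≤ 2 ^ k' := Nat.lt_two_pow_self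
          rw [pow_succ]
          omega
        have h9 : 2 ^ k ≤ 2 ^ (k * j) := Nat.pow_le_pow_right (by norm_num) (Nat.le_mul_of_pos_right _ hj)
        exact_mod_cast h8.trans h9
    _ = A.card * Real.sqrt (128 * q / b) ^ (k * j) := by
        rw [hS, mul_pow]
        ring

end HVaux

open HVaux in
theorem pf_AHV (hM : S_AMOM) : S_AHV := by
  intro k b q j A hk hb hj hq hA
  have hb' : (0 : ℝ) < b := by exact_mod_cast hb
  have h1 : ∑ τ : Fin j → Om k b, (∑ x ∈ A, ∏ u, ys (τ u) x) ^ 2 =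
      ∑ x' ∈ A, ∑ x ∈ A, (2 * ∏ l, ∑ i, sg (x l i) * sg (x' l i)) ^ j := by
    have h2 : ∀ τ : Fin j → Om k b, (∑ x ∈ A, ∏ u, ys (τ u) x) ^ 2 =
        ∑ x' ∈ A, ∑ x ∈ A, ∏ u, (ys (τ u) x * ys (τ u) x') := by
      intro τ
      rw [sq, Finset.sum_mul_sum, Finset.sum_comm]
      refine Finset.sum_congr rfl (fun x' _ => Finset.sum_congr rfl (fun x _ => ?_))
      rw [Finset.prod_mul_distrib]
    rw [Finset.sum_congr rfl (fun τ _ => h2 τ), Finset.sum_comm]
    refine Finset.sum_congr rfl (fun x' _ => ?_)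
    rw [Finset.sum_comm]
    refine Finset.sum_congr rfl (fun x _ => ?_)
    rw [← Ksum x x', Fintype.sum_pow]
  rw [h1]
  have h3 : ∀ x x' : Pt k b, (2 * ∏ l, ∑ i, sg (x l i) * sg (x' l i)) ^ j ≤
      (2 * (b : ℝ) ^ k) ^ j * ∏ l, (|∑ i, sg (x l i) * sg (x' l i)| / b) ^ j := by
    intro x x'
    calc (2 * ∏ l, ∑ i, sg (x l i) * sg (x' l i)) ^ j
        ≤ |(2 * ∏ l, ∑ i, sg (x l i) * sg (x' l i)) ^ j| := le_abs_self _
      _ = (2 * ∏ l, |∑ i, sg (x l i) * sg (x' l i)|) ^ j := by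
          rw [abs_pow, abs_mul, Finset.abs_prod, abs_two]
      _ = _ := by
          have h4 : ∏ l, |∑ i, sg (x l i) * sg (x' l i)| =
              (b : ℝ) ^ k * ∏ l, (|∑ i, sg (x l i) * sg (x' l i)| / b) := by
            rw [Finset.prod_div_distrib, Finset.prod_const, Finset.card_univ, Fintype.card_fin]
            field_simp
          rw [h4, Finset.prod_pow, ← mul_pow]
          ring
  calc ∑ x' ∈ A, ∑ x ∈ A, (2 * ∏ l, ∑ i, sg (x l i) * sg (x' l i)) ^ j
      ≤ ∑ x' ∈ A, ∑ x ∈ A, (2 * (b : ℝ) ^ k) ^ j *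
          ∏ l, (|∑ i, sg (x l i) * sg (x' l i)| / b) ^ j :=
        Finset.sum_le_sum (fun x' _ => Finset.sum_le_sum (fun x _ => h3 x x'))
    _ = ∑ x' ∈ A, (2 * (b : ℝ) ^ k) ^ j *
          ∑ x ∈ A, ∏ l, (|∑ i, sg (x l i) * sg (x' l i)| / b) ^ j := by
        refine Finset.sum_congr rfl (fun x' _ => ?_)
        rw [Finset.mul_sum]
    _ ≤ ∑ _x' ∈ A, (2 * (b : ℝ) ^ k) ^ j * (A.card * Real.sqrt (128 * q / b) ^ (k * j)) :=
        Finset.sum_le_sum (fun x' _ => mul_le_mul_of_nonneg_left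
          (sum_A hM A hk hb hj hq hA x') (by positivity))
    _ = _ := by
        rw [Finset.sum_const, nsmul_eq_mul]
        ring

end Pool.Agent.H51.MO
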